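import Mathlib
import Pool.Agent.TH841.PM.PenZ
import Pool.Agent.TH841.PM.Fin2

/-!
# Large ranks are rare in one-parameter families of curves with full rational 2-torsion

All the moments of `2 ^ (rank + corank Ш[2^∞])`, over `ℚ` (`r = 0`) and over varying multiquadratic
fields, outside of one set of density zero.

`W_t : y² = x³ + A(t) x + B(t) = (x - e₁(t)) (x - e₂(t)) (x - e₃(t))` with polynomials `e_i` such
that `e₂ - e₁ = D₀ u₀`, `e₃ - e₁ = D₀ u₁`, `e₂ - e₃ = D₀ u₂`, where `u_k` is a constant times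
a product of `n_k` irreducible polynomials, these `n = n₀ + n₁ + n₂` irreducible polynomials being
pairwise different, and `D₀` is any nonzero polynomial not divisible by one of them. The curve `W_t`
is considered over the field `F_t = ℚ(√D₁(t), ..., √D_r(t))`, for arbitrary nonzero polynomials
`D_i` not divisible by one of these polynomials. Let `2 n_k < n` for `k = 0, 1, 2`.

There is one set `Z` of integers of density zero, uniformly in all the intervals `(N, N + M]` with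
`|N| ≤ M ^ L`, such that over the integers outside of `Z` all the moments of
`2 ^ (rank W_t(F_t) + corank of the 2-primary part of Ш(W_t / F_t))` are bounded. So the proportion of
the `t` with rank plus corank at least `m` decays faster than any exponential `A ^ (-m)`; for the
average of a small power of `2 ^ (rank + corank)` see the hand-in `UnbalancedFamiliesVaryingFields`.

The engine is the project PM of helper841; statement and assembly by helper870.
-/

set_option autoImplicit false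

namespace Pool.Agent.Results.MP_9e6228_nt.AllMomentsVaryingFields

open Finset Polynomial

open Pool.Agent.TH841.NF.D (HasDiv crk rk)

/-- the curve `y² = x³ + A x + B` over `F` -/
def EF (A B : ℤ) (F : Type) [Field F] : WeierstrassCurve F := ⟨0, 0, 0, (A : F), (B : F)⟩

/-- the number field `F` is generated by square roots of the integers `d i` -/
def Gen (F : Type) [Field F] [NumberField F] {r : ℕ} (d : Fin r → ℤ) : Prop :=
  ∃ x : Fin r → F, (∀ i, x i ^ 2 = (d i : F)) ∧
    IntermediateField.adjoin ℚ (Set.range x) = ⊤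

/-- `u_k = a_k ∏ f_{k,i}` -/
noncomputable def u {n : Fin 3 → ℕ} (a : Fin 3 → ℤ) (f : ∀ k : Fin 3, Fin (n k) → ℤ[X])
    (k : Fin 3) : ℤ[X] := C (a k) * ∏ i, f k i

open Classical in
/-- the integers `t` outside of `Z` with `N < t ≤ N + M` -/
noncomputable def Par (Z : Set ℤ) (N : ℤ) (M : ℕ) : Finset ℤ :=
  (Ioc N (N + M)).filter (fun t => t ∉ Z)

open Classical in
/-- a set of density zero, uniformly in short intervals: for all `L` and `ε > 0` and all large `M`
every interval `(N, N + M]` with `|N| ≤ M ^ L` contains at most `ε M` elements of `Z` -/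
def DensityZero (Z : Set ℤ) : Prop := ∀ (L : ℕ) (ε : ℝ), 0 < ε → ∃ M₀ : ℕ, ∀ (N : ℤ) (M : ℕ),
  M₀ ≤ M → |N| ≤ (M : ℤ) ^ L → (((Ioc N (N + (M : ℤ))).filter (fun t => t ∈ Z)).card : ℝ) ≤ ε * M

open Classical in
/-- **Theorem.** Let `u_k = a_k ∏_{i < n_k} f_{k,i}`, `k = 0, 1, 2`, be polynomials with integer
coefficients with `u₀ - u₁ = u₂`, where `a_k ≠ 0` and the `n₀ + n₁ + n₂` polynomials `f_{k,i}` are
irreducible of positive degree and pairwise non-associated, and `2 n_k < n₀ + n₁ + n₂` for all `k`.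
Let `D₀`, ..., `D_r` be nonzero polynomials with integer coefficients not divisible by any `f_{k,i}`,
and `A`, `B`, `e₁`, `e₂`, `e₃` polynomials with integer coefficients such that
`x³ + A x + B = (x - e₁) (x - e₂) (x - e₃)`, `e₂ - e₁ = D₀ u₀` and `e₃ - e₁ = D₀ u₁`. There is a set
`Z` of integers of density zero, uniformly in short intervals, which contains the zeros of the
polynomials, such that for all `k` and `L` there is `C` such that for all integers `M ≥ 1` and
`|N| ≤ M ^ L` and the `t` outside of `Z` with `N < t ≤ N + M`: if `F t = ℚ(√D₁(t), ..., √D_r(t))`,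
`W t : y² = x³ + A(t) x + B(t)` over `F t` and `ρ t = rank W_t(F_t) + corank Ш(W_t / F_t)[2^∞]`, then
the coranks are finite, the sum of `2 ^ (k ρ t)` is at most `C M`, and at most `C M / 2 ^ (k m)` of
these `t` have `ρ t ≥ m`. -/
theorem result (n : Fin 3 → ℕ) (r : ℕ) (a : Fin 3 → ℤ) (f : ∀ k : Fin 3, Fin (n k) → ℤ[X])
    (ha : ∀ k, a k ≠ 0) (hf : ∀ k i, Irreducible (f k i) ∧ 0 < (f k i).natDegree)
    (hf' : ∀ k i l j, (⟨k, i⟩ : Σ k : Fin 3, Fin (n k)) ≠ ⟨l, j⟩ → ¬ Associated (f k i) (f l j))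
    (hu : u a f 0 - u a f 1 = u a f 2) (hn : ∀ k, 2 * n k < n 0 + n 1 + n 2)
    (D₀ : ℤ[X]) (hD₀ : D₀ ≠ 0) (hDf₀ : ∀ k i, ¬ f k i ∣ D₀)
    (D : Fin r → ℤ[X]) (hD : ∀ l, D l ≠ 0) (hDf : ∀ l k i, ¬ f k i ∣ D l)
    (A B e₁ e₂ e₃ : ℤ[X])
    (he : ∀ t x : ℤ, x ^ 3 + A.eval t * x + B.eval t =
      (x - e₁.eval t) * (x - e₂.eval t) * (x - e₃.eval t))
    (h12 : e₂ - e₁ = D₀ * u a f 0) (h13 : e₃ - e₁ = D₀ * u a f 1) :
    ∃ Z : Set ℤ, DensityZero Z ∧
      (∀ t, t ∉ Z → (∀ k, (D₀ * u a f k).eval t ≠ 0) ∧ ∀ i, (D i).eval t ≠ 0) ∧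
      ∀ k L : ℕ, ∃ C : ℝ, ∀ (N : ℤ) (M : ℕ), 1 ≤ M → |N| ≤ (M : ℤ) ^ L →
      ∀ (F : ℤ → Type) [∀ t, Field (F t)] [∀ t, NumberField (F t)],
      (∀ t ∈ Par Z N M, Gen (F t) (fun i => (D i).eval t)) →
      ∀ W : ∀ t, WeierstrassCurve (F t), (∀ t, W t = EF (A.eval t) (B.eval t) (F t)) →
      (∀ t ∈ Par Z N M, BddAbove {q | HasDiv (W t) q}) ∧
      ∑ t ∈ Par Z N M, ((2 : ℝ) ^ (rk (W t) + crk (W t))) ^ k ≤ C * M ∧
      ∀ m : ℕ, (((Par Z N M).filter (fun t => m ≤ rk (W t) + crk (W t))).card : ℝ) ≤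
        C * M / 2 ^ (k * m) := by
  have hirr : Pool.Agent.TH841.PT.Irr (Pool.Agent.TH841.TR.fp f) :=
    ⟨fun x => (hf x.1 x.2).1, fun x => (hf x.1 x.2).2, fun x y hxy => hf' x.1 x.2 y.1 y.2 hxy⟩
  obtain ⟨Z, h1, h2, h3⟩ := Pool.Agent.TH841.PM.penZF Pool.Agent.TH841.PM.tavz a f ha hirr hu hn
    r D₀ hD₀ hDf₀ D hD hDf A B e₁ e₂ e₃ he h12 h13
  refine ⟨Z, h1, h2, fun k L => ?_⟩
  obtain ⟨C, hC⟩ := h3 k L
  exact ⟨C, fun N M hM hN F _ _ hF W hW => hC N M hM hN _ rfl F hF W hW⟩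

end Pool.Agent.Results.MP_9e6228_nt.AllMomentsVaryingFields
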