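import Mathlib
import Pool.Agent.N873.AL.Parts

/-!
# The ranks of the twists of all the curves with a subgroup `Z/2 x Z/4`: superexponentially small tails

For integers `a`, `b` with `a b (a² - b²) ≠ 0` the curve `y² = x (x + a²) (x + b²)` has a rational subgroup `Z/2 x Z/4`
(and every such curve is isomorphic to one of these); its quadratic twists `E n (a, b) : y² = x (x - n a²) (x - n b²)`
by `-n` have full rational 2-torsion. Let `F` be any finite set of pairs, and `s` the number of the primes which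
divide `2 a b (a² - b²)` for a pair of `F`. For all the squarefree `n ≡ 3` modulo `4`, that is for all the twists
by the negative odd fundamental discriminants `-n`, and for all the pairs of `F`,

`rank + dim Ш[2] ≤ 2 (R + s + 1)`,

where `R` is the 4-rank of the class group of `ℚ(√-n)`, which has the exact law
`η_R = ∏_{i ≥ 1} (1 - 2^(-i)) / (2^(R²) ((1 - 1/2) ⋯ (1 - 1/2^R))²)`. Hence for every finite set of such curves the
maximum of the ranks of their simultaneous twists is bounded up to a set of twists of superexponentially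
small density: it is larger than `2 (r + s + 1)` for a proportion of at most `4 / 2^((r+1)²)` of the twists.
(The theorem of A. Smith on 2-primary Selmer groups in twist families does not apply to curves with full
2-torsion and a rational cyclic isogeny of degree four, as here.)
Parts by helpers 93, 97, 136, 273, 314, 368, 438, 519, 603, 614, 615, 700, 747, 756, 767, 873, 887, 891, 966.
-/

set_option autoImplicit false

namespace Pool.Agent.Results.MP_9e6228_nt.AllTwistsTwoFour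

open Filter NumberField
open Pool.Agent.TH841.SH.D (Sha)
open Pool.Agent.N873.UT (Em EQ r4 gs etaR parts2 gs_iff exK)

/-- the curve `y² = x (x - n a²) (x - n b²)` -/
def E (n : ℕ) (c : ℤ × ℤ) : WeierstrassCurve ℚ :=
  ⟨0, -((n : ℚ) * ((c.1 : ℚ) ^ 2 + (c.2 : ℚ) ^ 2)), 0, (n : ℚ) ^ 2 * (c.1 : ℚ) ^ 2 * (c.2 : ℚ) ^ 2, 0⟩

/-- the pairs `(a, b)` with `a b (a² - b²) ≠ 0` -/
def Pair (c : ℤ × ℤ) : Prop := c.1 ≠ 0 ∧ c.2 ≠ 0 ∧ c.1 ^ 2 ≠ c.2 ^ 2

/-- the number of the primes which divide `2 a b (a² - b²)` for a pair of `F` -/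
noncomputable def s (F : Finset (ℤ × ℤ)) : ℕ :=
  Set.ncard {p : ℕ | p.Prime ∧ (p = 2 ∨ ∃ c ∈ F, (p : ℤ) ∣ c.1 * c.2 * (c.1 ^ 2 - c.2 ^ 2))}

/-- the numbers `n` such that `-n` is an odd fundamental discriminant -/
def T : Set ℕ := {n | Squarefree n ∧ n % 4 = 3}

/-- the rank -/
noncomputable def rank (n : ℕ) (c : ℤ × ℤ) : ℕ := Module.finrank ℤ (E n c).toAffine.Point

/-- the number of the elements of `Ш` killed by two -/
noncomputable def sha2 (n : ℕ) (c : ℤ × ℤ) : ℕ := Nat.card {x : Sha (E n c) // 2 • x = 0}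

/-- the number of the elements of `S` up to `X` -/
noncomputable def cnt (S : Set ℕ) (X : ℕ) : ℝ := (S ∩ Set.Icc 1 X).ncard

/-- the number of the squares of the ideal classes whose order divides four: `2 ^ R`, where `R` is the
4-rank of the class group -/
noncomputable def twoFour (K : Type) [Field K] [NumberField K] : ℕ :=
  Nat.card {y : ClassGroup (𝓞 K) // ∃ x : ClassGroup (𝓞 K), x ^ 4 = 1 ∧ x ^ 2 = y}

/-- the 4-rank of the class group of `ℚ(√-n)` is `R` -/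
def FourRank (n R : ℕ) : Prop := ∀ (K : Type) [Field K] [NumberField K], Module.finrank ℚ K = 2 →
  (∃ s : K, s ^ 2 = -(n : K)) → twoFour K = 2 ^ R

/-- the limit law `η_R = ∏_{i ≥ 1} (1 - 2^(-i)) / (2^(R²) ((1 - 1/2) ⋯ (1 - 1/2^R))²)` -/
noncomputable def law4 (R : ℕ) : ℝ := (∏' i : ℕ, (1 - (1 / 2 : ℝ) ^ (i + 1))) /
  (2 ^ R ^ 2 * (∏ i ∈ Finset.range R, (1 - (1 / 2 : ℝ) ^ (i + 1))) ^ 2)

lemma E_eq (n : ℕ) (c : ℤ × ℤ) : E n c = EQ n c.1 c.2 := by
  apply WeierstrassCurve.ext <;> simp [E, Em]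

lemma s_eq {F : Finset (ℤ × ℤ)} (hF : ∀ c ∈ F, Pair c) : s F = (Pool.Agent.N873.AL.bad F).card := by
  unfold s
  rw [← Set.ncard_coe_finset]
  congr 1
  ext p
  rw [Finset.mem_coe, Pool.Agent.N873.AL.bad, Nat.mem_primeFactors]
  show p.Prime ∧ _ ↔ _
  refine and_congr_right fun hp => ?_
  rw [and_iff_left (Pool.Agent.N873.AL.ne0 hF), hp.dvd_mul, Nat.prime_dvd_prime_iff_eq hp Nat.prime_two,
    hp.prime.dvd_finsetProd_iff]
  simp only [Int.natCast_dvd]

lemma two_pow (K : Type) [Field K] [NumberField K] : ∃ R : ℕ, twoFour K = 2 ^ R := by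
  let G := ClassGroup (𝓞 K)
  let φ : (powMonoidHom 4 : G →* G).ker →* G := (powMonoidHom 2 : G →* G).comp (Subgroup.subtype _)
  have h1 : IsPGroup 2 φ.range := by
    rintro ⟨y, ⟨x, hx⟩, rfl⟩
    refine ⟨1, ?_⟩
    apply Subtype.ext
    have h4 : x ^ 4 = 1 := hx
    show ((x ^ 2) ^ (2 ^ 1) : G) = 1
    rw [← pow_mul]
    exact h4
  have : Fact (Nat.Prime 2) := ⟨Nat.prime_two⟩
  obtain ⟨R, hR⟩ := IsPGroup.iff_card.1 h1
  refine ⟨R, ?_⟩
  rw [← hR]
  unfold twoFour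
  refine Nat.card_congr (Equiv.subtypeEquivRight fun y => ?_)
  constructor
  · rintro ⟨x, h4, h2⟩
    exact ⟨⟨x, h4⟩, h2⟩
  · rintro ⟨⟨x, h4⟩, h2⟩
    exact ⟨x, h4, h2⟩

lemma fr_gs {n : ℕ} (hn : n ∈ T) (R : ℕ) : FourRank n R ↔ gs n = 2 ^ (R + 1) := by
  obtain ⟨hsq, h4⟩ := hn
  constructor
  · intro h
    obtain ⟨K, i1, i2, h2, hs⟩ := exK n hsq.ne_zero
    have e1 := gs_iff parts2 hsq h4 K h2 hs
    have e2 : r4 K = 2 ^ R := h K h2 hs
    rw [e1, e2, pow_succ, mul_comm]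
  · intro h K _ _ h2 hs
    have e1 := gs_iff parts2 hsq h4 K h2 hs
    rw [h, pow_succ, mul_comm] at e1
    exact (Nat.eq_of_mul_eq_mul_left (by norm_num) e1).symm

open scoped Classical in
lemma cnt_eq (S : Set ℕ) (X : ℕ) : cnt S X = (((Finset.Icc 1 X).filter fun n => n ∈ S).card : ℝ) := by
  unfold cnt
  rw [← Set.ncard_coe_finset]
  congr 2
  ext n
  rw [Finset.mem_coe, Finset.mem_filter, Finset.mem_Icc, Set.mem_inter_iff, Set.mem_Icc, and_comm]

open scoped Classical in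
lemma cnt_and (U : Set ℕ) (X : ℕ) :
    cnt {n ∈ T | n ∈ U} X = (((Finset.Icc 1 X).filter fun n => n ∈ T ∧ n ∈ U).card : ℝ) := by
  unfold cnt
  rw [← Set.ncard_coe_finset]
  congr 2
  ext n
  rw [Finset.mem_coe, Finset.mem_filter, Finset.mem_Icc, Set.mem_inter_iff, Set.mem_Icc, and_comm]
  exact Iff.rfl

open scoped Classical in
/-- **The theorem.** -/
theorem result (F : Finset (ℤ × ℤ)) (hF : ∀ c ∈ F, Pair c) :
    -- the bound, for all the twists and all the curves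
    (∀ n ∈ T, ∃ R : ℕ, FourRank n R ∧ ∀ c ∈ F, Finite {x : Sha (E n c) // 2 • x = 0} ∧ 0 < sha2 n c ∧
      2 ^ rank n c * sha2 n c ≤ 4 ^ (R + s F + 1) ∧ rank n c ≤ 2 * (R + s F + 1)) ∧
    -- the law of the 4-rank
    (∀ R : ℕ, Tendsto (fun X : ℕ => cnt {n ∈ T | FourRank n R} X / cnt T X) atTop (nhds (law4 R))) ∧
    -- the tails
    (∀ r : ℕ, ∀ ε : ℝ, 0 < ε → ∀ᶠ X : ℕ in atTop,
      cnt {n ∈ T | ∃ c ∈ F, 4 ^ (r + s F + 1) < 2 ^ rank n c * sha2 n c} X ≤
        (4 / 2 ^ (r + 1) ^ 2 + ε) * cnt T X) ∧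
    (∀ r : ℕ, ∀ ε : ℝ, 0 < ε → ∀ᶠ X : ℕ in atTop,
      cnt {n ∈ T | ∃ c ∈ F, 2 * (r + s F + 1) < rank n c} X ≤
        (4 / 2 ^ (r + 1) ^ 2 + ε) * cnt T X) := by
  have P := Pool.Agent.N873.AL.parts
  have hone : ∀ n ∈ T, ∀ R : ℕ, FourRank n R → ∀ c ∈ F, Finite {x : Sha (E n c) // 2 • x = 0} ∧
      0 < sha2 n c ∧ 2 ^ rank n c * sha2 n c ≤ 4 ^ (R + s F + 1) ∧
      rank n c ≤ 2 * (R + s F + 1) := by
    intro n hn R hR c hc
    obtain ⟨K, i1, i2, h2, hs⟩ := exK n hn.1.ne_zero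
    obtain ⟨h5, h6⟩ := Pool.Agent.N873.AL.bound P hF hc hn.1 hn.2 K h2 hs
    have hr : r4 K = 2 ^ R := hR K h2 hs
    have e : (2 ^ ((Pool.Agent.N873.AL.bad F).card + 1) * r4 K) ^ 2 = 4 ^ (R + s F + 1) := by
      rw [hr, s_eq hF, ← pow_add, ← pow_mul, show (4 : ℕ) = 2 ^ 2 by norm_num, ← pow_mul]
      congr 1
      ring
    rw [e] at h6
    have e2 : ∀ x : Sha (EQ n c.1 c.2), x + x = 0 ↔ 2 • x = 0 := fun x => by rw [two_nsmul]
    simp only [e2] at h5 h6
    rw [← E_eq] at h5 h6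
    have h7 : 0 < sha2 n c := by
      have : Nonempty {x : Sha (E n c) // 2 • x = 0} := ⟨⟨0, smul_zero 2⟩⟩
      exact Nat.card_pos
    refine ⟨h5, h7, h6, ?_⟩
    have h8 : 2 ^ rank n c ≤ 2 ^ (2 * (R + s F + 1)) := by
      refine (Nat.le_mul_of_pos_right _ h7).trans (h6.trans (le_of_eq ?_))
      rw [show (4 : ℕ) = 2 ^ 2 by norm_num, ← pow_mul]
    exact (Nat.pow_le_pow_iff_right (by norm_num)).1 h8
  have hex : ∀ n ∈ T, ∃ R : ℕ, FourRank n R := by
    intro n hn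
    obtain ⟨K, i1, i2, h2, hs⟩ := exK n hn.1.ne_zero
    obtain ⟨R, hR⟩ := two_pow K
    refine ⟨R, (fr_gs hn R).2 ?_⟩
    rw [gs_iff parts2 hn.1 hn.2 K h2 hs, pow_succ, mul_comm, ← hR]
    rfl
  have htail : ∀ r : ℕ, ∀ U : Set ℕ, (∀ n ∈ T, ∀ R ≤ r, FourRank n R → n ∉ U) → ∀ ε : ℝ, 0 < ε →
      ∀ᶠ X : ℕ in atTop, cnt {n ∈ T | n ∈ U} X ≤ (4 / 2 ^ (r + 1) ^ 2 + ε) * cnt T X := by
    intro r U hU ε hε
    have h := Pool.Agent.N873.AL.tail r U (fun n hn R hR hg => hU n hn R hR ((fr_gs hn R).2 hg)) ε hε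
    filter_upwards [h] with X hX
    rw [div_eq_mul_one_div (4 : ℝ), ← one_div_pow, cnt_and, cnt_eq T]
    exact hX
  refine ⟨fun n hn => ?_, fun R => ?_, fun r ε hε => ?_, fun r ε hε => ?_⟩
  · obtain ⟨R, hR⟩ := hex n hn
    exact ⟨R, hR, hone n hn R hR⟩
  · refine Tendsto.congr (fun X => ?_) (Pool.Agent.N873.AL.law R)
    have h1 := cnt_and {n | FourRank n R} X
    have e : (((Finset.Icc 1 X).filter fun n => n ∈ Pool.Agent.N873.AL.T ∧ gs n = 2 ^ (R + 1)).card : ℝ) =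
        cnt {n ∈ T | FourRank n R} X := by
      refine Eq.trans ?_ h1.symm
      congr 2
      refine Finset.filter_congr fun n _ => ?_
      refine and_congr_right fun hn => ?_
      exact (fr_gs hn R).symm
    rw [e, cnt_eq T]
    rfl
  · refine htail r {n | ∃ c ∈ F, 4 ^ (r + s F + 1) < 2 ^ rank n c * sha2 n c} ?_ ε hε
    rintro n hn R hR hfr ⟨c, hc, hlt⟩
    have h1 := (hone n hn R hfr c hc).2.2.1
    exact absurd (hlt.trans_le (h1.trans (Nat.pow_le_pow_right (by norm_num) (by omega))))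
      (lt_irrefl _)
  · refine htail r {n | ∃ c ∈ F, 2 * (r + s F + 1) < rank n c} ?_ ε hε
    rintro n hn R hR hfr ⟨c, hc, hlt⟩
    have h1 := (hone n hn R hfr c hc).2.2.2
    omega

end Pool.Agent.Results.MP_9e6228_nt.AllTwistsTwoFour
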