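import Mathlib
import Pool.Agent.N870.H.Rk3
import Pool.Agent.W307.RT.Tors

/-!
# Large ranks of elliptic curves with a given noncyclic torsion group

Let `T = Z/2 x Z/m`, `m = 2, 4, 6, 8`, be one of the four noncyclic torsion groups of elliptic curves
over `ℚ`. Among all the elliptic curves over `ℚ` with torsion group `T` and height at most `H`, the
proportion of those of rank at least `r` is at most `K (log H) ^ e_T(k) / 2 ^ (k r)`, for every
integer `k ≥ 1`, uniformly in `r`, with explicit exponents `e_T(k)`, `e_T(1) = 0`. The same holds with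
`2 ^ rank` replaced by `2 ^ rank * #Ш[2]`, and then the proportion is known up to a constant factor
in the exponent at the scale `log log H`: for `λ ≥ 4` and large `H` the proportion of the curves with
`2 ^ rank * #Ш[2] ≥ 2 ^ (λ log log H)` is at most `(log H) ^ (-(λ log λ - 3 λ))` and at least
`(log H) ^ (-100 λ log λ)`.

Parts of the proof are due to helper701, helper547, helper82, helper380, helper164, helper222,
helper263, helper559, helper199, and to the authors of the projects RT, SE, FK, Z8 and ET.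
-/

set_option autoImplicit false

namespace Pool.Agent.Results.MP_9e6228_nt.LargeRanks

open Filter Topology

open Pool.Agent.TH841.SH.D (Sha)

/-- the curve `y² = x³ + A x + B` over `ℚ`, `c = (A, B)` -/
def E (c : ℤ × ℤ) : WeierstrassCurve ℚ := ⟨0, 0, 0, (c.1 : ℚ), (c.2 : ℚ)⟩

/-- The pairs `(A, B)` of integers such that `4 A³ + 27 B² ≠ 0`, there is no prime `p` with
`p⁴ ∣ A` and `p⁶ ∣ B`, `Z/2 x Z/m` embeds in the group of the rational points of
`y² = x³ + A x + B`, this curve has no rational point of order 3 or 4 if `m = 2` and none of order 8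
if `m = 4`, and the height `max (4 |A|³) (27 B²)` is at most `H`. By Mazur's theorem, for
`m = 2, 4, 6, 8` these are the elliptic curves over `ℚ` of height at most `H` with torsion group
`Z/2 x Z/m`, one for each isomorphism class. -/
def Fam (m H : ℕ) : Set (ℤ × ℤ) :=
  {c : ℤ × ℤ | 4 * c.1 ^ 3 + 27 * c.2 ^ 2 ≠ 0 ∧
    (∀ p : ℕ, p.Prime → ¬ ((p : ℤ) ^ 4 ∣ c.1 ∧ (p : ℤ) ^ 6 ∣ c.2)) ∧
    (∃ f : ZMod 2 × ZMod m →+ (E c).toAffine.Point, Function.Injective f) ∧
    (m = 2 → ∀ P : (E c).toAffine.Point, addOrderOf P ≠ 3 ∧ addOrderOf P ≠ 4) ∧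
    (m = 4 → ∀ P : (E c).toAffine.Point, addOrderOf P ≠ 8) ∧
    4 * |c.1| ^ 3 ≤ H ∧ 27 * c.2 ^ 2 ≤ H}

/-- the rank of the curve -/
noncomputable def rank (c : ℤ × ℤ) : ℕ := Module.finrank ℤ (E c).toAffine.Point

/-- `2 ^ rank * #Ш[2]` -/
noncomputable def size (c : ℤ × ℤ) : ℕ := 2 ^ rank c * Nat.card {x : Sha (E c) // x + x = 0}

/-- the exponents: the maximum of `0` and of
`(1 / 2) (2 ^ k - 1) - 2 (1 - 2 ^ (-k))` for `Z/2 x Z/2`,
`(2 ^ k - 1) - 2 (1 - 2 ^ (-k))` for `Z/2 x Z/4`,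
`(3 / 2) (2 ^ k - 1) - 4 (1 - 2 ^ (-k))` for `Z/2 x Z/6`,
`2 (2 ^ k - 1) - 4 (1 - 2 ^ (-k))` for `Z/2 x Z/8` -/
noncomputable def e (m : ℕ) (k : ℝ) : ℝ :=
  max 0 (if m = 2 then 1 / 2 * (2 ^ k - 1) - 2 * (1 - 2 ^ (-k))
    else if m = 4 then (2 ^ k - 1) - 2 * (1 - 2 ^ (-k))
    else if m = 6 then 3 / 2 * (2 ^ k - 1) - 4 * (1 - 2 ^ (-k))
    else 2 * (2 ^ k - 1) - 4 * (1 - 2 ^ (-k)))

lemma Fam_eq (m H : ℕ) : Fam m H = (Pool.Agent.N870.H.Rk.G m H : Set (ℤ × ℤ)) := by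
  classical
  ext c
  have h : Pool.Agent.W307.RT.HasT m (Pool.Agent.W307.RT.Sh c.1 c.2) ↔
    ∃ f : ZMod 2 × ZMod m →+ (E c).toAffine.Point, Function.Injective f :=
    Pool.Agent.W307.RT.tors_iff
  unfold Fam Pool.Agent.N870.H.Rk.G Pool.Agent.W307.RT.Cv
  rw [Set.mem_ofPred_eq, Finset.mem_coe, Finset.mem_filter, Finset.mem_filter, h,
    Finset.mem_product, Finset.mem_Icc, Finset.mem_Icc]
  constructor
  · rintro ⟨h1, h2, h3, h6, h7, h4, h5⟩
    refine ⟨⟨⟨?_, ?_⟩, h1, h4, h5, h2, h3⟩, h6, h7⟩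
    · rw [← abs_le]
      have h0 := abs_nonneg c.1
      rcases eq_or_lt_of_le h0 with h6 | h6
      · rw [← h6]; positivity
      · have : 1 ≤ |c.1| := h6
        nlinarith [mul_nonneg h0 h0, mul_self_nonneg (|c.1| - 1)]
    · rw [← abs_le]
      have h0 := abs_nonneg c.2
      rw [← sq_abs] at h5
      rcases eq_or_lt_of_le h0 with h6 | h6
      · rw [← h6]; positivity
      · have : 1 ≤ |c.2| := h6
        nlinarith
  · rintro ⟨⟨-, h1, h4, h5, h2, h3⟩, h6, h7⟩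
    exact ⟨h1, h2, h3, h6, h7, h4, h5⟩

lemma card_eq (m H : ℕ) : (Fam m H).ncard = (Pool.Agent.N870.H.Rk.G m H).card := by
  rw [Fam_eq, Set.ncard_coe_finset]

open Classical in
lemma sep_eq (m H : ℕ) (P : ℤ × ℤ → Prop) : {c ∈ Fam m H | P c}.ncard =
    ((Pool.Agent.N870.H.Rk.G m H).filter P).card := by
  rw [← Set.ncard_coe_finset]
  congr 1
  ext c
  rw [Fam_eq]
  simp

/-- **Theorem.** Let `T = Z/2 x Z/m`, `m = 2, 4, 6, 8`, and order the elliptic curves over `ℚ` with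
torsion group `T` by the height.

(1) There are finitely many of height at most `H`, and their number tends to infinity with `H`.
(2) For every integer `k ≥ 1` there are `K` and `H₀` such that for all `H ≥ H₀` and all `r ≥ 0` the
proportion of the curves with `2 ^ rank * #Ш[2] ≥ 2 ^ r` (for example, of rank at least `r`) among
those of height at most `H` is at most `K (log H) ^ e_T(k) / 2 ^ (k r)`.
(3) For every integer `k ≥ 1`, all real `λ` and `ε > 0` and all large `H` the proportion of the curves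
of rank at least `λ log log H` is at most `(log H) ^ (-(k λ log 2 - e_T(k)) + ε)`.
(4) For every real `λ ≥ 4` and all large `H` the proportion of the curves with
`2 ^ rank * #Ш[2] ≥ 2 ^ (λ log log H)` is at least `(log H) ^ (-100 λ log λ)` and at most
`(log H) ^ (-(λ log λ - 3 λ))`; hence the latter bound also holds for the proportion of the curves of
rank at least `λ log log H`. -/
theorem result (m : ℕ) (hm : m = 2 ∨ m = 4 ∨ m = 6 ∨ m = 8) :
    ((∀ H : ℕ, (Fam m H).Finite ∧ ∀ c ∈ Fam m H, 2 ^ rank c ≤ size c) ∧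
      Tendsto (fun H : ℕ => (Fam m H).ncard) atTop atTop) ∧
    (∀ k : ℕ, 1 ≤ k → ∃ (K : ℝ) (H₀ : ℕ), ∀ H : ℕ, H₀ ≤ H → ∀ r : ℕ,
      ({c ∈ Fam m H | 2 ^ r ≤ size c}.ncard : ℝ) ≤
        K * (Real.log H) ^ e m k / 2 ^ (k * r) * (Fam m H).ncard) ∧
    (∀ k : ℕ, 1 ≤ k → ∀ l ε : ℝ, 0 < ε → ∃ H₀ : ℕ, ∀ H : ℕ, H₀ ≤ H →
      ({c ∈ Fam m H | l * Real.log (Real.log H) ≤ (rank c : ℝ)}.ncard : ℝ) ≤
        (Real.log H) ^ (-(k * l * Real.log 2 - e m k) + ε) * (Fam m H).ncard) ∧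
    (∀ l : ℝ, 4 ≤ l → ∃ H₀ : ℕ, ∀ H : ℕ, H₀ ≤ H →
      (Real.log H) ^ (-(100 * l * Real.log l)) * (Fam m H).ncard ≤
        ({c ∈ Fam m H | (2 : ℝ) ^ (l * Real.log (Real.log H)) ≤ (size c : ℝ)}.ncard : ℝ) ∧
      ({c ∈ Fam m H | (2 : ℝ) ^ (l * Real.log (Real.log H)) ≤ (size c : ℝ)}.ncard : ℝ) ≤
        (Real.log H) ^ (-(l * Real.log l - 3 * l)) * (Fam m H).ncard ∧
      ({c ∈ Fam m H | l * Real.log (Real.log H) ≤ (rank c : ℝ)}.ncard : ℝ) ≤
        (Real.log H) ^ (-(l * Real.log l - 3 * l)) * (Fam m H).ncard) := by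
  classical
  have he : ∀ k : ℝ, e m k = Pool.Agent.N870.H.Rk.ee m k := fun k => rfl
  have hr : ∀ c, rank c = Module.finrank ℤ (Pool.Agent.W307.RT.Sh c.1 c.2).toAffine.Point :=
    fun c => rfl
  have hs : ∀ c, size c = Pool.Agent.N870.H.Rk.sz c := fun c => rfl
  refine ⟨⟨fun H => ⟨?_, fun c hc => ?_⟩, ?_⟩, fun k hk => ?_, fun k hk l ε hε => ?_, fun l hl => ?_⟩
  · rw [Fam_eq]
    exact Finset.finite_toSet _
  · rw [Fam_eq] at hc
    rw [hr, hs]
    exact Pool.Agent.N870.H.Rk.two_pow_le hm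
      (Pool.Agent.N870.H.Rk.G_sub m H (Finset.mem_coe.1 hc))
  · simp only [card_eq]
    exact Pool.Agent.N870.H.Rk.tend hm
  · obtain ⟨K, H0, -, hK⟩ := Pool.Agent.N870.H.Rk.core hm hk
    refine ⟨K, H0, fun H hH r => ?_⟩
    have h1 := hK H hH (2 ^ r) (by positivity)
    rw [sep_eq, card_eq, he]
    have h2 : (0 : ℝ) < 2 ^ (k * r) := by positivity
    have h3 : ((2 : ℝ) ^ r) ^ k = 2 ^ (k * r) := by rw [← pow_mul, mul_comm]
    rw [h3] at h1
    rw [div_mul_eq_mul_div, le_div_iff₀ h2]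
    refine le_trans (le_of_eq ?_) h1
    congr 3
    ext c
    simp only [Finset.mem_filter, hs]
    refine and_congr_right fun _ => ?_
    norm_cast
  · obtain ⟨H0, hH0⟩ := Pool.Agent.N870.H.Rk.scale hm hk l ε hε
    refine ⟨H0, fun H hH => ?_⟩
    rw [sep_eq, card_eq, he]
    exact hH0 H hH
  · obtain ⟨H1, hH1⟩ := Pool.Agent.N870.H.Rk.lowerG hm l hl
    obtain ⟨H2, hH2⟩ := Pool.Agent.N870.H.Rk.upper hm l hl
    refine ⟨H1 + H2, fun H hH => ?_⟩
    rw [sep_eq, sep_eq, card_eq]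
    refine ⟨hH1 H (by omega), hH2 H (by omega), le_trans ?_ (hH2 H (by omega))⟩
    have : (Pool.Agent.N870.H.Rk.G m H).filter
        (fun c => l * Real.log (Real.log H) ≤ (rank c : ℝ)) ⊆
        (Pool.Agent.N870.H.Rk.G m H).filter
          (fun c => (2 : ℝ) ^ (l * Real.log (Real.log H)) ≤ (size c : ℝ)) := by
      intro c hc
      obtain ⟨a1, a2⟩ := Finset.mem_filter.1 hc
      refine Finset.mem_filter.2 ⟨a1, ?_⟩
      have a3 := Pool.Agent.N870.H.Rk.two_pow_le hm (Pool.Agent.N870.H.Rk.G_sub m H a1)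
      rw [← hr, ← hs] at a3
      have a4 : (2 : ℝ) ^ rank c ≤ (size c : ℝ) := by exact_mod_cast a3
      refine le_trans ?_ a4
      rw [← Real.rpow_natCast]
      exact Real.rpow_le_rpow_of_exponent_le (by norm_num) a2
    exact_mod_cast Finset.card_le_card this

end Pool.Agent.Results.MP_9e6228_nt.LargeRanks
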