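import Mathlib
import Pool.Agent.N870.RG.Fix

/-!
# Large ranks are rare: curves with full rational 2-torsion in thin families of quadratic twists

The ranks (and the coranks of the 2-primary parts of the Tate-Shafarevich groups) of the quadratic
twists of a curve with full rational 2-torsion by the values of a polynomial, at almost prime
arguments, over `ℚ` (`s = 0`) and over varying multiquadratic fields.

`E : y² = x³ + A x + B` is an elliptic curve with three integer roots and `D₀`, `D₁`, ..., `D_s`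
are arbitrary nonzero polynomials with integer coefficients, of any degrees. `W_t` is the quadratic
twist of `E` by `D₀(t)` (`E` itself for `D₀ = 1`), considered over the field
`F_t = ℚ(√D₁(t), ..., √D_s(t))`. Let `G₀, ..., G_g` be a system of polynomials as in the conjecture
of Schinzel (irreducible, with positive leading coefficients, without a fixed prime divisor); they
may occur among the factors of the `D_i`. In every interval `(X, X + Y]` with `X ^ θ ≤ Y ≤ X` there
are at least `κ Y / (log X) ^ (g + 1)` integers `t` for which all the values `G_i(t)` have at most `k`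
prime factors, and all the moments of
`2 ^ (rank W_t(F_t) + corank of the 2-primary part of Ш(W_t / F_t))` over these `t` are bounded.
-/

set_option autoImplicit false

namespace Pool.Agent.Results.MP_9e6228_nt.MomentsAtAlmostPrimes

open Finset Polynomial

open Pool.Agent.TH841.NF.D (HasDiv crk rk)

/-- the curve `y² = x³ + A x + B` over `F` -/
def EF (A B : ℤ) (F : Type) [Field F] : WeierstrassCurve F := ⟨0, 0, 0, (A : F), (B : F)⟩

/-- the number field `F` is generated by square roots of the integers `d i` -/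
def Gen (F : Type) [Field F] [NumberField F] {s : ℕ} (d : Fin s → ℤ) : Prop :=
  ∃ x : Fin s → F, (∀ i, x i ^ 2 = (d i : F)) ∧
    IntermediateField.adjoin ℚ (Set.range x) = ⊤

/-- all the values `G_i(t)` have at most `k` prime factors, counted with multiplicity, and all these
prime factors are larger than `t ^ (1 / k)` -/
def AlmostPrime {g : ℕ} (G : Fin g → ℤ[X]) (k : ℕ) (t : ℤ) : Prop :=
  ∀ i, ArithmeticFunction.cardFactors ((G i).eval t).natAbs ≤ k ∧
    ∀ p : ℕ, p.Prime → (p : ℤ) ∣ (G i).eval t → (t : ℝ) ^ (1 / (k : ℝ)) < (p : ℝ)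

open Classical in
/-- the integers `t` with `X < t ≤ X + Y` that are not zeros of the polynomials `D_i` and for which
all the `G_i(t)` are almost primes -/
noncomputable def Par {s g : ℕ} (D₀ : ℤ[X]) (D : Fin s → ℤ[X]) (G : Fin g → ℤ[X]) (k X Y : ℕ) :
    Finset ℤ :=
  (Ioc (X : ℤ) (X + Y)).filter (fun t => (D₀.eval t ≠ 0 ∧ ∀ i, (D i).eval t ≠ 0) ∧
    AlmostPrime G k t)

open Classical in
/-- **Theorem.** Let `y² = (x - e₁) (x - e₂) (x - e₃) = x³ + A x + B` be an elliptic curve with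
integers `e₁`, `e₂`, `e₃`, let `D₀`, `D₁`, ..., `D_s` be nonzero polynomials with integer
coefficients, `F t = ℚ(√D₁(t), ..., √D_s(t))` and `W t` the quadratic twist of the curve by
`D₀(t)`, over `F t`. Let `G₀, ..., G_g` be pairwise non-associated irreducible polynomials of positive
degree with positive leading coefficients, without a fixed prime divisor. For `0 < θ ≤ 1` and all
large `k` there is `κ > 0` such that for every `j` there are `C` and `X₀` such that for `X ≥ X₀` and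
`X ^ θ ≤ Y ≤ X` and the set `P` of the `t` with `X < t ≤ X + Y`, not zeros of the `D_i`, for which
all the `G_i(t)` have at most `k` prime factors, all larger than `t ^ (1 / k)`: the set `P` has at
least `κ Y / (log X) ^ (g + 1)` elements, and with
`ρ t = rank W_t(F_t) + corank Ш(W_t / F_t)[2^∞]` the average of `2 ^ (j ρ t)` over `P` is at
most `C`, and at most the proportion `C / 2 ^ (j n)` of the `t` in `P` have `ρ t ≥ n`. -/
theorem result (A B e₁ e₂ e₃ : ℤ) (hE : 4 * A ^ 3 + 27 * B ^ 2 ≠ 0)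
    (he : ∀ x : ℤ, x ^ 3 + A * x + B = (x - e₁) * (x - e₂) * (x - e₃))
    (s : ℕ) (D₀ : ℤ[X]) (hD₀ : D₀ ≠ 0) (D : Fin s → ℤ[X]) (hD : ∀ i, D i ≠ 0)
    (g : ℕ) (G : Fin (g + 1) → ℤ[X])
    (hG : ∀ i, Irreducible (G i) ∧ 0 < (G i).natDegree ∧ 0 < (G i).leadingCoeff)
    (hG' : ∀ i j, i ≠ j → ¬ Associated (G i) (G j))
    (hfix : ∀ p : ℕ, p.Prime → ∃ m : ℕ, ∀ i, ¬ (p : ℤ) ∣ (G i).eval (m : ℤ))
    (θ : ℝ) (hθ : 0 < θ) (hθ1 : θ ≤ 1) :
    ∃ k₀ : ℕ, 2 ≤ k₀ ∧ ∀ k : ℕ, k₀ ≤ k → ∃ κ : ℝ, 0 < κ ∧ ∀ j : ℕ, ∃ (C : ℝ) (X₀ : ℕ),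
      ∀ X : ℕ, X₀ ≤ X → ∀ Y : ℕ, (X : ℝ) ^ θ ≤ Y → Y ≤ X →
      κ * (Y / (Real.log X) ^ (g + 1)) ≤ ((Par D₀ D G k X Y).card : ℝ) ∧
      ∀ (F : ℤ → Type) [∀ t, Field (F t)] [∀ t, NumberField (F t)],
      (∀ t ∈ Par D₀ D G k X Y, Gen (F t) (fun i => (D i).eval t)) →
      ∀ W : ∀ t, WeierstrassCurve (F t),
      (∀ t, W t = EF (D₀.eval t ^ 2 * A) (D₀.eval t ^ 3 * B) (F t)) →
      (∀ t ∈ Par D₀ D G k X Y, BddAbove {q | HasDiv (W t) q}) ∧
      ∑ t ∈ Par D₀ D G k X Y, ((2 : ℝ) ^ (rk (W t) + crk (W t))) ^ j ≤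
        C * (Par D₀ D G k X Y).card ∧
      ∀ n : ℕ, (((Par D₀ D G k X Y).filter (fun t => n ≤ rk (W t) + crk (W t))).card : ℝ) ≤
        C * (Par D₀ D G k X Y).card / 2 ^ (j * n) := by
  have hSys : Pool.Agent.W123.RU.Poly.Sys G := by
    refine ⟨fun i => (hG i).1, fun i => (hG i).2.1, fun i => (hG i).2.2, ?_, hfix⟩
    intro i j hij
    by_contra hne
    exact hG' i j hne (hij ▸ Associated.refl _)
  obtain ⟨k₀, hk₀, h1⟩ := Pool.Agent.TH841.PT.N870.mq_alp Pool.Agent.TH841.PT.avh hSys hG' hE he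
    s D₀ hD₀ D hD θ hθ hθ1
  refine ⟨k₀, hk₀, fun k hk => ?_⟩
  obtain ⟨κ, hκ, h2⟩ := h1 k hk
  refine ⟨κ, hκ, fun j => ?_⟩
  obtain ⟨C, X₀, h3⟩ := h2 j
  exact ⟨C, X₀, fun X hX Y hXY hYX => h3 X hX Y hXY hYX _ rfl⟩

end Pool.Agent.Results.MP_9e6228_nt.MomentsAtAlmostPrimes
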